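import Mathlib

set_option autoImplicit false

namespace Pool.Agent.Results.MP_387adc_co.No

open Polynomial

/-- All coefficients lie in `{0, 1} ∪ ℚ_{≥ 2}`. -/
def InP (p : ℚ[X]) : Prop := ∀ i, p.coeff i = 0 ∨ p.coeff i = 1 ∨ 2 ≤ p.coeff i

/-- Pointwise order on `[s, t]`. -/
def LeP (s t : ℝ) (p q : ℚ[X]) : Prop := ∀ x ∈ Set.Icc s t, aeval x p ≤ aeval x q

def Universal (s t : ℝ) : Prop :=
  ∀ (A : Type) [Countable A] [Preorder A],
    ∃ f : A → ℚ[X], (∀ a, InP (f a)) ∧ ∀ a b, a ≤ b ↔ LeP s t (f a) (f b)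

theorem pow_le {p : ℚ[X]} (hp : InP p) (h0 : p ≠ 0) {t : ℝ} (ht : 0 ≤ t) :
    t ^ p.natDegree ≤ aeval t p := by
  rw [aeval_eq_sum_range]
  have hn : ∀ i, (0 : ℚ) ≤ p.coeff i := fun i => by rcases hp i with h | h | h <;> linarith
  have h1 : (1 : ℚ) ≤ p.coeff p.natDegree := by
    rcases hp p.natDegree with h | h | h
    · exact absurd h (leadingCoeff_ne_zero.2 h0)
    · exact h.ge
    · linarith
  refine le_trans ?_ (Finset.single_le_sum (f := fun i => p.coeff i • t ^ i) (fun i _ => ?_)
    (Finset.self_mem_range_succ p.natDegree))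
  · rw [Rat.smul_def]
    have : (1 : ℝ) ≤ (p.coeff p.natDegree : ℝ) := by exact_mod_cast h1
    nlinarith [pow_nonneg ht p.natDegree]
  · exact smul_nonneg (hn i) (pow_nonneg ht i)

theorem alt (q : ℝ[X]) (N : ℕ) (y : Fin (N + 2) → ℝ) (hy : StrictMono y)
    (h : ∀ k : Fin (N + 1), q.eval (y k.castSucc) * q.eval (y k.succ) < 0) : N < q.natDegree := by
  have h1 : ∀ k : Fin (N + 1), ∃ r ∈ Set.Ioo (y k.castSucc) (y k.succ), q.eval r = 0 := by
    intro k
    have hle : y k.castSucc ≤ y k.succ := (hy k.castSucc_lt_succ).le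
    have hc : ContinuousOn (fun x => q.eval x) (Set.Icc (y k.castSucc) (y k.succ)) :=
      q.continuous.continuousOn
    rcases mul_neg_iff.1 (h k) with h2 | h2
    · exact intermediate_value_Ioo' hle hc ⟨h2.2, h2.1⟩
    · exact intermediate_value_Ioo hle hc ⟨h2.1, h2.2⟩
  choose r hr h0 using h1
  have hq : q ≠ 0 := by
    rintro rfl
    simpa using h 0
  have hm : StrictMono r := by
    intro a b hab
    have : y a.succ ≤ y b.castSucc := hy.monotone (by
      rw [Fin.le_def, Fin.val_succ, Fin.val_castSucc]; exact hab)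
    linarith [(hr a).2, (hr b).1]
  have h2 : (Finset.univ.image r).card ≤ q.natDegree := by
    refine le_trans ?_ (le_trans (Multiset.toFinset_card_le q.roots) (card_roots' q))
    apply Finset.card_le_card
    intro x hx
    obtain ⟨k, -, rfl⟩ := Finset.mem_image.1 hx
    exact Multiset.mem_toFinset.2 ((mem_roots hq).2 (h0 k))
  rw [Finset.card_image_of_injective _ hm.injective, Finset.card_univ, Fintype.card_fin] at h2
  omega

theorem result (s t : ℝ) (hs : 1 < s) (hst : s < t) : ¬ Universal s t := by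
  intro hU
  haveI : Countable (WithTop (Finset ℕ)) := inferInstanceAs (Countable (Option (Finset ℕ)))
  obtain ⟨f, hP, hf⟩ := hU (WithTop (Finset ℕ))
  have ht : 1 < t := hs.trans hst
  obtain ⟨N, hN⟩ := pow_unbounded_of_one_lt (aeval t (f ⊤)) ht
  have hdeg : ∀ a, (f a).natDegree ≤ N := by
    intro a
    by_cases h0 : f a = 0
    · simp [h0]
    · have h1 := pow_le (hP a) h0 (by linarith : 0 ≤ t)
      have h2 := (hf a ⊤).1 le_top t ⟨hst.le, le_rfl⟩
      exact ((pow_lt_pow_iff_right₀ ht).1 (h1.trans_lt (h2.trans_lt hN))).le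
  let e : Finset (Fin (N + 2)) → ℝ → ℝ := fun S x =>
    aeval x (f ((S.map Fin.valEmbedding : Finset ℕ) : WithTop (Finset ℕ)))
  have he : ∀ S T, S ⊆ T ↔ ∀ x ∈ Set.Icc s t, e S x ≤ e T x := by
    intro S T
    rw [← Finset.map_subset_map (f := Fin.valEmbedding), ← Finset.le_iff_subset, ← WithTop.coe_le_coe, hf]
    rfl
  have h1 : ∀ i : Fin (N + 2), ∃ x ∈ Set.Icc s t, e (Finset.univ.erase i) x < e {i} x := by
    intro i
    have := (he {i} (Finset.univ.erase i)).not.1 (by simp)
    push Not at this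
    exact this
  choose x hx hlt using h1
  have key : ∀ S T i, i ∈ S → i ∉ T → e T (x i) < e S (x i) := by
    intro S T i hS hT
    have a := (he T (Finset.univ.erase i)).1 (fun j hj => by
      simp only [Finset.mem_erase, Finset.mem_univ, and_true]
      rintro rfl
      exact hT hj) _ (hx i)
    have b := (he {i} S).1 (by simpa using hS) _ (hx i)
    linarith [hlt i]
  have hinj : Function.Injective x := by
    intro i j hij
    by_contra hne
    have a := key {i} {j} i (by simp) (by simpa using hne)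
    have b := key {j} {i} j (by simp) (by simpa using Ne.symm hne)
    rw [hij] at a
    linarith
  let σ := Tuple.sort x
  have hy : StrictMono (x ∘ σ) :=
    (Tuple.monotone_sort x).strictMono_of_injective (hinj.comp σ.injective)
  let S : Finset (Fin (N + 2)) := Finset.univ.filter fun i => (σ.symm i).val % 2 = 0
  let T : Finset (Fin (N + 2)) := Finset.univ.filter fun i => (σ.symm i).val % 2 = 1
  let q : ℝ[X] := (f ((S.map Fin.valEmbedding : Finset ℕ) : WithTop (Finset ℕ)) -
    f ((T.map Fin.valEmbedding : Finset ℕ) : WithTop (Finset ℕ))).map (algebraMap ℚ ℝ)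
  have hq : ∀ z, q.eval z = e S z - e T z := by
    intro z
    simp only [q, e, eval_map_algebraMap, map_sub]
  have hev : ∀ k : Fin (N + 2), k.val % 2 = 0 → 0 < q.eval ((x ∘ σ) k) := by
    intro k hk
    rw [hq, sub_pos]
    exact key S T _ (by simp [S, hk]) (by simp [T, hk])
  have hod : ∀ k : Fin (N + 2), k.val % 2 = 1 → q.eval ((x ∘ σ) k) < 0 := by
    intro k hk
    rw [hq, sub_neg]
    exact key T S _ (by simp [T, hk]) (by simp [S, hk])
  have h2 := alt q N (x ∘ σ) hy (by
    intro k
    rcases Nat.mod_two_eq_zero_or_one k.val with h | h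
    · exact mul_neg_of_pos_of_neg (hev _ (by simpa using h)) (hod _ (by rw [Fin.val_succ]; omega))
    · exact mul_neg_of_neg_of_pos (hod _ (by simpa using h)) (hev _ (by rw [Fin.val_succ]; omega)))
  have h3 : q.natDegree ≤ N :=
    natDegree_map_le.trans ((natDegree_sub_le _ _).trans (max_le (hdeg _) (hdeg _)))
  omega

end Pool.Agent.Results.MP_387adc_co.No
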